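import Mathlib

set_option autoImplicit false

namespace Pool.Agent.MP_5e7104_an.H55

/-- The cascade operator for a three-term mask. -/
def S (p0 p1 p2 : ℝ) (G : ℝ → ℝ) : ℝ → ℝ :=
  fun x => p0 * G (2 * x) + p1 * G (2 * x - 1) + p2 * G (2 * x - 2)

/-- Continuous, supported in `[0,2]`, with two-term sums bounded by `c`. -/
def Good (G : ℝ → ℝ) (c : ℝ) : Prop :=
  Continuous G ∧ (∀ x, x ≤ 0 → G x = 0) ∧ (∀ x, 2 ≤ x → G x = 0) ∧ ∀ x, |G x| + |G (x + 1)| ≤ c

theorem Good.five {G : ℝ → ℝ} {c : ℝ} (h : Good G c) (y : ℝ) :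
    |G (y - 2)| + |G (y - 1)| + |G y| + |G (y + 1)| + |G (y + 2)| ≤ c := by
  obtain ⟨-, h0, h2, hb⟩ := h
  rcases le_total y 0 with hy | hy
  · have := hb (y + 1)
    rw [h0 (y - 2) (by linarith), h0 (y - 1) (by linarith), h0 y hy]
    rw [show y + 1 + 1 = y + 2 by ring] at this
    simpa using this
  rcases le_total y 1 with hy1 | hy1
  · have := hb y
    rw [h0 (y - 2) (by linarith), h0 (y - 1) (by linarith), h2 (y + 2) (by linarith)]
    simpa using this
  rcases le_total y 2 with hy2 | hy2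
  · have := hb (y - 1)
    rw [h0 (y - 2) (by linarith), h2 (y + 1) (by linarith), h2 (y + 2) (by linarith)]
    rw [show y - 1 + 1 = y by ring] at this
    simpa using this
  · have := hb (y - 2)
    rw [h2 y hy2, h2 (y + 1) (by linarith), h2 (y + 2) (by linarith)]
    rw [show y - 2 + 1 = y - 1 by ring] at this
    simpa using this

theorem S_continuous (p0 p1 p2 : ℝ) {G : ℝ → ℝ} (h : Continuous G) :
    Continuous (S p0 p1 p2 G) := by
  unfold S
  fun_prop

theorem Good.step {p0 p1 p2 l : ℝ} (h02 : |p0| + |p2| ≤ l) (h1 : |p1| ≤ l)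
    {G : ℝ → ℝ} {c : ℝ} (h : Good G c) : Good (S p0 p1 p2 G) (l * c) := by
  have h5 := h.five
  obtain ⟨hc, h0, h2, hb⟩ := h
  refine ⟨S_continuous _ _ _ hc, fun x hx => ?_, fun x hx => ?_, fun x => ?_⟩
  · unfold S
    rw [h0 _ (by linarith), h0 _ (by linarith), h0 _ (by linarith)]; ring
  · unfold S
    rw [h2 _ (by linarith), h2 _ (by linarith), h2 _ (by linarith)]; ring
  · have h5' := h5 (2 * x)
    unfold S
    rw [show 2 * (x + 1) - 1 = 2 * x + 1 by ring, show 2 * (x + 1) - 2 = 2 * x by ring,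
      show 2 * (x + 1) = 2 * x + 2 by ring]
    set A := G (2 * x - 2)
    set B := G (2 * x - 1)
    set C := G (2 * x)
    set D := G (2 * x + 1)
    set E := G (2 * x + 2)
    have e1 : |p0 * C + p1 * B + p2 * A| ≤ |p0| * |C| + |p1| * |B| + |p2| * |A| := by
      refine (abs_add_three _ _ _).trans (le_of_eq ?_)
      simp only [abs_mul]
    have e2 : |p0 * E + p1 * D + p2 * C| ≤ |p0| * |E| + |p1| * |D| + |p2| * |C| := by
      refine (abs_add_three _ _ _).trans (le_of_eq ?_)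
      simp only [abs_mul]
    have hp0 := abs_nonneg p0
    have hp2 := abs_nonneg p2
    have hl : 0 ≤ l := le_trans (abs_nonneg _) h1
    have a1 : |p2| * |A| ≤ l * |A| := mul_le_mul_of_nonneg_right (by linarith) (abs_nonneg _)
    have a2 : |p1| * |B| ≤ l * |B| := mul_le_mul_of_nonneg_right h1 (abs_nonneg _)
    have a3 : (|p0| + |p2|) * |C| ≤ l * |C| := mul_le_mul_of_nonneg_right h02 (abs_nonneg _)
    have a4 : |p1| * |D| ≤ l * |D| := mul_le_mul_of_nonneg_right h1 (abs_nonneg _)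
    have a5 : |p0| * |E| ≤ l * |E| := mul_le_mul_of_nonneg_right (by linarith) (abs_nonneg _)
    have a6 := mul_le_mul_of_nonneg_left h5' hl
    nlinarith

/-- The starting ramp. -/
noncomputable def F0 (x : ℝ) : ℝ := max 0 (min 1 x)

theorem F0_cont : Continuous F0 := by unfold F0; fun_prop

theorem F0_neg {x : ℝ} (hx : x ≤ 0) : F0 x = 0 := by
  unfold F0; exact max_eq_left (le_trans (min_le_right _ _) hx)

theorem F0_pos {x : ℝ} (hx : 1 ≤ x) : F0 x = 1 := by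
  unfold F0; rw [min_eq_left hx]; simp

theorem F0_abs (x : ℝ) : |F0 x| ≤ 1 := by
  unfold F0
  rw [abs_of_nonneg (le_max_left _ _)]
  exact max_le zero_le_one (min_le_left _ _)

theorem exists_cascade {p0 p1 p2 l : ℝ} (hsum : p0 + p1 + p2 = 1) (h02 : |p0| + |p2| ≤ l)
    (h1 : |p1| ≤ l) (hl : l < 1) :
    ∃ F : ℝ → ℝ, Continuous F ∧ (∀ x, x ≤ 0 → F x = 0) ∧ (∀ x, 2 ≤ x → F x = 1) ∧
      ∀ x, F x = p0 * F (2 * x) + p1 * F (2 * x - 1) + p2 * F (2 * x - 2) := by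
  have hl0 : 0 ≤ l := le_trans (abs_nonneg _) h1
  set G0 : ℝ → ℝ := fun x => S p0 p1 p2 F0 x - F0 x with hG0
  have hb0 : ∀ x, |G0 x| ≤ 3 := by
    intro x
    simp only [hG0, S]
    have e1 : |p0 * F0 (2 * x) + p1 * F0 (2 * x - 1) + p2 * F0 (2 * x - 2)|
        ≤ |p0| * |F0 (2 * x)| + |p1| * |F0 (2 * x - 1)| + |p2| * |F0 (2 * x - 2)| := by
      refine (abs_add_three _ _ _).trans (le_of_eq ?_)
      simp only [abs_mul]
    have a1 := mul_le_mul_of_nonneg_left (F0_abs (2 * x)) (abs_nonneg p0)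
    have a2 := mul_le_mul_of_nonneg_left (F0_abs (2 * x - 1)) (abs_nonneg p1)
    have a3 := mul_le_mul_of_nonneg_left (F0_abs (2 * x - 2)) (abs_nonneg p2)
    have a4 := F0_abs x
    have a5 := abs_sub (p0 * F0 (2 * x) + p1 * F0 (2 * x - 1) + p2 * F0 (2 * x - 2)) (F0 x)
    linarith
  have good0 : Good G0 6 := by
    refine ⟨(S_continuous _ _ _ F0_cont).sub F0_cont, fun x hx => ?_, fun x hx => ?_, fun x => ?_⟩
    · simp only [hG0, S]
      rw [F0_neg (by linarith), F0_neg (by linarith), F0_neg (by linarith), F0_neg hx]; ring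
    · simp only [hG0, S]
      rw [F0_pos (by linarith), F0_pos (by linarith), F0_pos (by linarith), F0_pos (by linarith)]
      linarith
    · linarith [hb0 x, hb0 (x + 1)]
  set G : ℕ → ℝ → ℝ := fun n => (S p0 p1 p2)^[n] G0 with hG
  have hGs : ∀ n, G (n + 1) = S p0 p1 p2 (G n) := fun n => by
    simp only [hG, Function.iterate_succ_apply']
  have good : ∀ n, Good (G n) (l ^ n * 6) := by
    intro n
    induction n with
    | zero => simpa [hG] using good0
    | succ n ih =>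
      rw [hGs, show l ^ (n + 1) * 6 = l * (l ^ n * 6) by ring]
      exact ih.step h02 h1
  have hbd : ∀ n x, ‖G n x‖ ≤ l ^ n * 6 := fun n x => by
    have := (good n).2.2.2 x
    rw [Real.norm_eq_abs]
    linarith [abs_nonneg (G n (x + 1))]
  have hsumm : Summable (fun n : ℕ => l ^ n * 6) :=
    (summable_geometric_of_lt_one hl0 hl).mul_right 6
  have hs : ∀ x, Summable (fun n => G n x) := fun x =>
    Summable.of_norm_bounded hsumm (fun n => hbd n x)
  refine ⟨fun x => F0 x + ∑' n, G n x, ?_, fun x hx => ?_, fun x hx => ?_, fun x => ?_⟩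
  · exact F0_cont.add (continuous_tsum (fun n => (good n).1) hsumm hbd)
  · simp [F0_neg hx, fun n => (good n).2.1 x hx]
  · simp [F0_pos (show 1 ≤ x by linarith), fun n => (good n).2.2.1 x hx]
  · have e1 : ∑' n, G n x = G 0 x + ∑' n, G (n + 1) x := (hs x).tsum_eq_zero_add
    have e2 : ∑' n, G (n + 1) x = p0 * ∑' n, G n (2 * x) + p1 * ∑' n, G n (2 * x - 1)
        + p2 * ∑' n, G n (2 * x - 2) := by
      simp only [hGs, S]
      rw [Summable.tsum_add (((hs _).mul_left p0).add ((hs _).mul_left p1)) ((hs _).mul_left p2),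
        Summable.tsum_add ((hs _).mul_left p0) ((hs _).mul_left p1), tsum_mul_left, tsum_mul_left,
        tsum_mul_left]
    have e3 : G 0 x = p0 * F0 (2 * x) + p1 * F0 (2 * x - 1) + p2 * F0 (2 * x - 2) - F0 x := by
      simp [hG, hG0, S]
    simp only
    rw [e1, e2, e3]
    ring

theorem exists_root : ∃ a : ℝ, 64 / 100 < a ∧ a < 65 / 100 ∧ 2 * a ^ 3 - 2 * a ^ 2 + 2 * a - 1 = 0 := by
  have hc : ContinuousOn (fun a : ℝ => 2 * a ^ 3 - 2 * a ^ 2 + 2 * a - 1)
      (Set.Icc (64 / 100) (65 / 100)) := by fun_prop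
  have := intermediate_value_Ioo (show (64 / 100 : ℝ) ≤ 65 / 100 by norm_num) hc
  obtain ⟨a, ⟨h1, h2⟩, h3⟩ := this (show (0 : ℝ) ∈ _ by constructor <;> norm_num)
  exact ⟨a, h1, h2, h3⟩

theorem lin_zero {a q1 q2 X Y : ℝ} (h1 : 64 / 100 < a) (h2 : a < 65 / 100) (b1 : 1 / 2 < q1)
    (b1' : q1 < 6 / 10) (b2 : -(2 / 10) < q2) (b2' : q2 < 0)
    (EX : X = a * q1 * Y + (a * q2 + a * q1) * X) (EY : Y = q2 * q1 * Y + q2 ^ 2 * X) :
    X = 0 ∧ Y = 0 := by
  have c2 : q2 * q1 < 0 := mul_neg_of_neg_of_pos b2' (by linarith)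
  have c4 : a * q1 < 4 / 10 := by nlinarith
  have c5 : 0 < a * q1 := by positivity
  have c0 : a * q2 < 0 := mul_neg_of_pos_of_neg (by linarith) b2'
  have c3 : q2 ^ 2 < 4 / 100 := by nlinarith
  have c6 : a * q1 * q2 ^ 2 < 4 / 10 * (4 / 100) := by
    have := mul_lt_mul'' c4 c3 c5.le (sq_nonneg q2)
    linarith
  have c7 : 6 / 10 * 1 < (1 - (a * q2 + a * q1)) * (1 - q2 * q1) :=
    mul_lt_mul'' (by linarith) (by linarith) (by norm_num) (by norm_num)
  have hdet : 0 < (1 - (a * q2 + a * q1)) * (1 - q2 * q1) - a * q1 * q2 ^ 2 := by linarith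
  have hX0 : X = 0 := by
    have : ((1 - (a * q2 + a * q1)) * (1 - q2 * q1) - a * q1 * q2 ^ 2) * X = 0 := by
      have t1 : (1 - (a * q2 + a * q1)) * X = a * q1 * Y := by linarith
      have t2 : (1 - q2 * q1) * Y = q2 ^ 2 * X := by linarith
      calc _ = (1 - q2 * q1) * ((1 - (a * q2 + a * q1)) * X) - a * q1 * (q2 ^ 2 * X) := by ring
        _ = 0 := by rw [t1, ← t2]; ring
    exact (mul_eq_zero.mp this).resolve_left hdet.ne'
  have t2 : (1 - q2 * q1) * Y = 0 := by rw [hX0] at EY; linarith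
  exact ⟨hX0, (mul_eq_zero.mp t2).resolve_left (by linarith)⟩

/-- The data: the step function `F` with the special mask. -/
theorem exists_step : ∃ (a : ℝ) (F : ℝ → ℝ), 64 / 100 < a ∧ a < 65 / 100 ∧
    2 * a ^ 3 - 2 * a ^ 2 + 2 * a - 1 = 0 ∧ Continuous F ∧ (∀ x, x ≤ 0 → F x = 0) ∧
    (∀ x, 2 ≤ x → F x = 1) ∧
    (∀ x, F x = a * F (2 * x) + (1 - 2 * a + 2 * a ^ 2) * F (2 * x - 1)
      + (a - 2 * a ^ 2) * F (2 * x - 2)) ∧ F (2 / 3) = 1 ∧ F (5 / 3) = 1 := by
  obtain ⟨a, h1, h2, h3⟩ := exists_root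
  obtain ⟨F, hc, h0, h2', hr⟩ := exists_cascade (p0 := a) (p1 := 1 - 2 * a + 2 * a ^ 2)
    (p2 := a - 2 * a ^ 2) (l := 9 / 10) (by ring)
    (by rw [abs_of_pos (by linarith), abs_of_neg (by nlinarith)]; nlinarith)
    (by rw [abs_of_pos (by nlinarith)]; nlinarith) (by norm_num)
  have e1 := hr (1 / 3)
  have e2 := hr (2 / 3)
  have e4 := hr (4 / 3)
  have e5 := hr (5 / 3)
  norm_num at e1 e2 e4 e5
  rw [h0 (-(1 / 3)) (by norm_num), h0 (-(4 / 3)) (by norm_num)] at e1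
  rw [h0 (-(2 / 3)) (by norm_num)] at e2
  rw [h2' (8 / 3) (by norm_num)] at e4
  rw [h2' (10 / 3) (by norm_num), h2' (7 / 3) (by norm_num)] at e5
  obtain ⟨X, hX⟩ : ∃ X, F (2 / 3) = 1 + X := ⟨F (2 / 3) - 1, by ring⟩
  obtain ⟨Y, hY⟩ : ∃ Y, F (5 / 3) = 1 + Y := ⟨F (5 / 3) - 1, by ring⟩
  rw [hX] at e1 e2 e4
  rw [hY] at e4 e5
  rw [e1, e4] at e2
  rw [e4] at e5
  have b1 : 1 / 2 < 1 - 2 * a + 2 * a ^ 2 := by nlinarith
  have b1' : 1 - 2 * a + 2 * a ^ 2 < 6 / 10 := by nlinarith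
  have b2 : -(2 / 10) < a - 2 * a ^ 2 := by nlinarith
  have b2' : a - 2 * a ^ 2 < 0 := by nlinarith
  obtain ⟨hX0, hY0⟩ := lin_zero (X := X) (Y := Y) h1 h2 b1 b1' b2 b2'
    (by linear_combination e2 + h3) (by linear_combination e5)
  exact ⟨a, F, h1, h2, h3, hc, h0, h2', hr, by rw [hX, hX0]; ring, by rw [hY, hY0]; ring⟩

end Pool.Agent.MP_5e7104_an.H55
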