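import Mathlib
import Pool.Agent.MP_5e7104_an.H55.Cascade

set_option autoImplicit false

namespace Pool.Agent.MP_5e7104_an.H55

open MeasureTheory

/-- Autocorrelation. -/
noncomputable def AC (φ : ℝ → ℝ) (s : ℝ) : ℝ := ∫ x, φ x * φ (x - s)

theorem supp_affine {φ : ℝ → ℝ} (h0 : ∀ x, x ≤ 0 → φ x = 0) (h3 : ∀ x, 3 ≤ x → φ x = 0)
    {c : ℝ} (hc : 0 < c) (u : ℝ) : HasCompactSupport (fun x => φ (c * x - u)) := by
  refine HasCompactSupport.intro (isCompact_Icc (a := u / c) (b := (u + 3) / c)) ?_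
  intro x hx
  rw [Set.mem_Icc, not_and_or, not_le, not_le] at hx
  rcases hx with hx | hx
  · apply h0
    rw [lt_div_iff₀ hc] at hx
    linarith
  · apply h3
    rw [div_lt_iff₀ hc] at hx
    linarith

theorem AC_scale (φ : ℝ → ℝ) {c : ℝ} (hc : 0 < c) (u v : ℝ) :
    ∫ x, φ (c * x - u) * φ (c * x - v) = AC φ (v - u) / c := by
  have h1 := Measure.integral_comp_mul_left (fun y => φ (y - u) * φ (y - v)) c
  rw [h1, abs_of_pos (inv_pos.mpr hc), smul_eq_mul]
  have h2 := integral_sub_right_eq_self (μ := (volume : Measure ℝ))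
    (fun y => φ y * φ (y - (v - u))) u
  simp only [show ∀ y : ℝ, y - u - (v - u) = y - v from fun y => by ring] at h2
  rw [h2, AC]
  ring

theorem AC_neg (φ : ℝ → ℝ) (s : ℝ) : AC φ (-s) = AC φ s := by
  have h1 := AC_scale φ one_pos s 0
  have h2 := AC_scale φ one_pos 0 s
  simp only [one_mul, sub_zero, zero_sub, div_one] at h1 h2
  rw [← h1, ← h2]
  simp only [mul_comm]

theorem AC_far {φ : ℝ → ℝ} (h0 : ∀ x, x ≤ 0 → φ x = 0) (h3 : ∀ x, 3 ≤ x → φ x = 0)
    {s : ℝ} (hs : 3 ≤ s) : AC φ s = 0 := by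
  unfold AC
  have : (fun x => φ x * φ (x - s)) = fun _ => 0 := by
    funext x
    rcases le_total x 3 with hx | hx
    · rw [h0 (x - s) (by linarith), mul_zero]
    · rw [h3 x hx, zero_mul]
  rw [this, integral_zero]

theorem integrable_pair {φ : ℝ → ℝ} (hc : Continuous φ) (h0 : ∀ x, x ≤ 0 → φ x = 0)
    (h3 : ∀ x, 3 ≤ x → φ x = 0) {c : ℝ} (hc0 : 0 < c) (u v : ℝ) :
    Integrable (fun x => φ (c * x - u) * φ (c * x - v)) := by
  apply Continuous.integrable_of_hasCompactSupport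
  · fun_prop
  · exact (supp_affine h0 h3 hc0 u).mul_right

theorem AC_refine {φ : ℝ → ℝ} (hc : Continuous φ) (h0 : ∀ x, x ≤ 0 → φ x = 0)
    (h3 : ∀ x, 3 ≤ x → φ x = 0) {h : ℕ → ℝ}
    (hr : ∀ x, φ x = ∑ m ∈ Finset.range 4, h m * φ (2 * x - m)) (s : ℝ) :
    AC φ s = ∑ m ∈ Finset.range 4, ∑ n ∈ Finset.range 4,
      h m * h n * (AC φ (2 * s + n - m) / 2) := by
  have e : (fun x => φ x * φ (x - s)) = fun x => ∑ m ∈ Finset.range 4, ∑ n ∈ Finset.range 4,
      h m * h n * (φ (2 * x - m) * φ (2 * x - (2 * s + n))) := by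
    funext x
    rw [hr x, hr (x - s), Finset.sum_mul_sum]
    refine Finset.sum_congr rfl fun m _ => Finset.sum_congr rfl fun n _ => ?_
    rw [show 2 * (x - s) - n = 2 * x - (2 * s + n) by ring]
    ring
  conv_lhs => rw [AC, e]
  rw [integral_finsetSum]
  · refine Finset.sum_congr rfl fun m _ => ?_
    rw [integral_finsetSum]
    · refine Finset.sum_congr rfl fun n _ => ?_
      rw [integral_const_mul, AC_scale φ two_pos]
    · intro n _
      exact (integrable_pair hc h0 h3 two_pos _ _).const_mul _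
  · intro m _
    exact integrable_finsetSum _ fun n _ => (integrable_pair hc h0 h3 two_pos _ _).const_mul _

theorem integral_phi {φ F : ℝ → ℝ} (hF : Continuous F) (F0 : ∀ x, x ≤ 0 → F x = 0)
    (F2 : ∀ x, 2 ≤ x → F x = 1) (hφ : ∀ x, φ x = F x - F (x - 1)) : ∫ x, φ x = 1 := by
  have h1 : ∫ x, φ x = ∫ x in (0 : ℝ)..3, φ x := by
    symm
    apply intervalIntegral.integral_eq_integral_of_support_subset
    intro x hx
    by_contra hn
    apply hx
    rw [Set.mem_Ioc, not_and_or, not_lt, not_le] at hn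
    rcases hn with hn | hn
    · rw [hφ, F0 _ hn, F0 _ (by linarith), sub_zero]
    · rw [hφ, F2 _ (by linarith), F2 _ (by linarith), sub_self]
  have hi : ∀ a b : ℝ, IntervalIntegrable F volume a b := fun a b => hF.intervalIntegrable a b
  have h2 : ∫ x in (0 : ℝ)..3, φ x = (∫ x in (0 : ℝ)..3, F x) - ∫ x in (0 : ℝ)..3, F (x - 1) := by
    simp only [hφ]
    apply intervalIntegral.integral_sub (hi _ _)
    exact (by fun_prop : Continuous fun x => F (x - 1)).intervalIntegrable _ _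
  have h3 : ∫ x in (0 : ℝ)..3, F (x - 1) = ∫ x in (-1 : ℝ)..2, F x := by
    rw [intervalIntegral.integral_comp_sub_right]
    norm_num
  have h4 := intervalIntegral.integral_add_adjacent_intervals (hi 0 2) (hi 2 3)
  have h5 := intervalIntegral.integral_add_adjacent_intervals (hi (-1) 0) (hi 0 2)
  have h6 : ∫ x in (2 : ℝ)..3, F x = ∫ x in (2 : ℝ)..3, (1 : ℝ) := by
    apply intervalIntegral.integral_congr
    intro x hx
    rw [Set.uIcc_of_le (by norm_num)] at hx
    exact F2 x hx.1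
  have h7 : ∫ x in (-1 : ℝ)..0, F x = ∫ x in (-1 : ℝ)..0, (0 : ℝ) := by
    apply intervalIntegral.integral_congr
    intro x hx
    rw [Set.uIcc_of_le (by norm_num)] at hx
    exact F0 x hx.2
  simp only [intervalIntegral.integral_const, smul_eq_mul, mul_zero, mul_one] at h6 h7
  rw [h1, h2, h3, ← h4, ← h5, h6, h7]
  ring

theorem AC_sum {φ F : ℝ → ℝ} (hF : Continuous F) (F0 : ∀ x, x ≤ 0 → F x = 0)
    (F2 : ∀ x, 2 ≤ x → F x = 1) (hφ : ∀ x, φ x = F x - F (x - 1))
    (hc : Continuous φ) (h0 : ∀ x, x ≤ 0 → φ x = 0) (h3 : ∀ x, 3 ≤ x → φ x = 0) :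
    AC φ (-2) + AC φ (-1) + AC φ 0 + AC φ 1 + AC φ 2 = 1 := by
  have hi : ∀ s : ℝ, Integrable (fun x => φ x * φ (x - s)) := fun s => by
    simpa using integrable_pair hc h0 h3 one_pos 0 s
  have hs := integral_finsetSum (μ := (volume : Measure ℝ)) (Finset.range 5)
    (f := fun (n : ℕ) (x : ℝ) => φ x * φ (x - ((n : ℝ) - 2))) (fun n _ => hi _)
  simp only [Finset.sum_range_succ, Finset.sum_range_zero] at hs
  norm_num at hs
  unfold AC
  norm_num
  rw [← hs]
  refine Eq.trans ?_ (integral_phi hF F0 F2 hφ)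
  congr 1
  funext x
  rcases le_total x 0 with hx | hx
  · simp [h0 x hx]
  rcases le_total 3 x with hx3 | hx3
  · simp [h3 x hx3]
  have e : φ (x + 2) + φ (x + 1) + φ x + φ (x - 1) + φ (x - 2) = 1 := by
    simp only [hφ]
    rw [F2 (x + 2) (by linarith), F0 (x - 2 - 1) (by linarith),
      show x + 2 - 1 = x + 1 by ring, show x + 1 - 1 = x by ring,
      show x - 1 - 1 = x - 2 by ring]
    ring
  calc _ = φ x * (φ (x + 2) + φ (x + 1) + φ x + φ (x - 1) + φ (x - 2)) := by ring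
    _ = φ x := by rw [e, mul_one]

/-- The real scaling function with all the facts needed later. -/
theorem exists_phi : ∃ (φ F : ℝ → ℝ) (h : ℕ → ℝ), Continuous F ∧ (∀ x, x ≤ 0 → F x = 0) ∧
    (∀ x, 2 ≤ x → F x = 1) ∧ (∀ x, φ x = F x - F (x - 1)) ∧ Continuous φ ∧
    (∀ x, x ≤ 0 → φ x = 0) ∧ (∀ x, 3 ≤ x → φ x = 0) ∧
    (∀ x, φ x = ∑ m ∈ Finset.range 4, h m * φ (2 * x - m)) ∧
    (∀ k : ℤ, AC φ k = if k = 0 then 1 else 0) ∧
    (∀ k : ℤ, φ (2 / 3 + k) = if k = 0 then 1 else 0) := by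
  obtain ⟨a, F, h1, h2, h3, hF, F0, F2, hr, hx2, hx5⟩ := exists_step
  set φ : ℝ → ℝ := fun x => F x - F (x - 1) with hφd
  have hφ : ∀ x, φ x = F x - F (x - 1) := fun x => rfl
  set h : ℕ → ℝ := fun m => if m = 0 then a else if m = 1 then 1 - a + 2 * a ^ 2 else
    if m = 2 then 1 - a else a - 2 * a ^ 2 with hh
  have hc : Continuous φ := by rw [hφd]; fun_prop
  have z0 : ∀ x, x ≤ 0 → φ x = 0 := fun x hx => by
    rw [hφ, F0 _ hx, F0 _ (by linarith), sub_zero]
  have z3 : ∀ x, 3 ≤ x → φ x = 0 := fun x hx => by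
    rw [hφ, F2 _ (by linarith), F2 _ (by linarith), sub_self]
  have href : ∀ x, φ x = ∑ m ∈ Finset.range 4, h m * φ (2 * x - m) := by
    intro x
    simp only [Finset.sum_range_succ, Finset.sum_range_zero, hh, hφ]
    norm_num
    rw [hr x, hr (x - 1), show 2 * (x - 1) - 1 = 2 * x - 3 by ring,
      show 2 * (x - 1) - 2 = 2 * x - 4 by ring, show 2 * (x - 1) = 2 * x - 2 by ring,
      show 2 * x - 1 - 1 = 2 * x - 2 by ring, show 2 * x - 2 - 1 = 2 * x - 3 by ring,
      show 2 * x - 3 - 1 = 2 * x - 4 by ring]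
    ring
  have A3 := AC_far z0 z3 (s := 3) le_rfl
  have A4 := AC_far z0 z3 (s := 4) (by norm_num)
  have A5 := AC_far z0 z3 (s := 5) (by norm_num)
  have A6 := AC_far z0 z3 (s := 6) (by norm_num)
  have A7 := AC_far z0 z3 (s := 7) (by norm_num)
  have Am1 := AC_neg φ 1
  have Am2 := AC_neg φ 2
  have R1 := AC_refine hc z0 z3 href 1
  have R2 := AC_refine hc z0 z3 href 2
  have Sm := AC_sum hF F0 F2 hφ hc z0 z3
  simp only [Finset.sum_range_succ, Finset.sum_range_zero, hh] at R1 R2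
  norm_num at R1 R2
  rw [A3, A4, A5, Am1] at R1
  rw [A3, A4, A5, A6, A7] at R2
  rw [Am1, Am2] at Sm
  obtain ⟨A0, hA0⟩ : ∃ t, AC φ 0 = t := ⟨_, rfl⟩
  obtain ⟨A1, hA1⟩ : ∃ t, AC φ 1 = t := ⟨_, rfl⟩
  obtain ⟨A2, hA2⟩ : ∃ t, AC φ 2 = t := ⟨_, rfl⟩
  rw [hA0, hA1, hA2] at R1 Sm
  rw [hA1, hA2] at R2
  have o : (1 - a) * a + (a - 2 * a ^ 2) * (1 - a + 2 * a ^ 2) = 0 := by
    linear_combination (-2 * a) * h3
  have E2 : A2 = a * (a - 2 * a ^ 2) / 2 * A1 := by
    linear_combination R2 + (A2 / 2) * o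
  have E1 : A1 / 2 = A2 := by
    linear_combination R1 + (A0 / 2 - A2) * o
  have hneg : a * (a - 2 * a ^ 2) < 0 := mul_neg_of_pos_of_neg (by linarith) (by nlinarith)
  have Z1 : A1 = 0 := by
    have : (1 - a * (a - 2 * a ^ 2)) * A1 = 0 := by linear_combination 2 * E1 + 2 * E2
    exact (mul_eq_zero.mp this).resolve_left (by linarith)
  have Z2 : A2 = 0 := by rw [← E1, Z1]; ring
  have Z0 : A0 = 1 := by linarith
  refine ⟨φ, F, h, hF, F0, F2, hφ, hc, z0, z3, href, fun k => ?_, fun k => ?_⟩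
  · have pos : ∀ k : ℤ, 0 < k → AC φ k = 0 := by
      intro k hk
      rcases lt_or_ge k 3 with h3 | h3
      · interval_cases k
        · simpa [Z1] using hA1
        · simpa [Z2] using hA2
      · exact AC_far z0 z3 (by exact_mod_cast h3)
    rcases lt_trichotomy k 0 with hk | hk | hk
    · rw [if_neg hk.ne, ← AC_neg]
      have := pos (-k) (by omega)
      simpa using this
    · subst hk
      simpa [Z0] using hA0
    · rw [if_neg hk.ne']
      exact pos k hk
  · rcases lt_trichotomy k 0 with hk | hk | hk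
    · rw [if_neg hk.ne]
      apply z0
      have : (k : ℝ) ≤ -1 := by exact_mod_cast (show k ≤ -1 by omega)
      linarith
    · subst hk
      rw [hφ, F0 (2 / 3 + ((0 : ℤ) : ℝ) - 1) (by norm_num)]
      simpa using hx2
    · rw [if_neg hk.ne']
      rcases lt_or_ge k 3 with h3 | h3
      · interval_cases k
        · rw [hφ]
          norm_num
          rw [hx2, hx5, sub_self]
        · rw [hφ]
          norm_num
          rw [F2 (8 / 3) (by norm_num), hx5, sub_self]
      · apply z3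
        have : (3 : ℝ) ≤ k := by exact_mod_cast h3
        linarith

end Pool.Agent.MP_5e7104_an.H55
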