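import Mathlib
import Pool.Agent.MP_5e7104_an.H55.Ortho

set_option autoImplicit false

namespace Pool.Agent.MP_5e7104_an.H55

open MeasureTheory Filter Topology

noncomputable abbrev H := Lp ℂ 2 (volume : Measure ℝ)

noncomputable def cj (j : ℤ) : ℝ := (2 : ℝ) ^ ((j : ℝ) / 2)

theorem cj_pos (j : ℤ) : 0 < cj j := Real.rpow_pos_of_pos two_pos _

theorem cj_sq (j : ℤ) : cj j * cj j = (2 : ℝ) ^ j := by
  unfold cj
  rw [← Real.rpow_add two_pos, ← Real.rpow_intCast]
  congr 1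
  ring

theorem zero_of_intervals (f : H) (h : ∀ a b : ℝ, a < b → ∫ t in Set.Ioc a b, f t = 0) :
    f = 0 := by
  have hl : LocallyIntegrable (f : ℝ → ℂ) volume :=
    (Lp.memLp f).locallyIntegrable (by norm_num)
  have h0 : ∀ a b : ℝ, ∫ t in a..b, f t = 0 := by
    intro a b
    rcases lt_trichotomy a b with hab | hab | hab
    · rw [intervalIntegral.integral_of_le hab.le, h a b hab]
    · subst hab; simp
    · rw [intervalIntegral.integral_of_ge hab.le, h b a hab, neg_zero]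
  apply Lp.ext
  filter_upwards [_root_.LocallyIntegrable.ae_hasDerivAt_integral hl,
    Lp.coeFn_zero ℂ 2 (volume : Measure ℝ)] with x hx hz
  have h1 := hx 0
  simp only [h0] at h1
  rw [hz, h1.unique (hasDerivAt_const x (0 : ℂ))]
  rfl

theorem exists_bound {F : ℝ → ℝ} (hF : Continuous F) (F0 : ∀ x, x ≤ 0 → F x = 0)
    (F2 : ∀ x, 2 ≤ x → F x = 1) : ∃ M : ℝ, 0 ≤ M ∧ ∀ x, |F x| ≤ M := by
  obtain ⟨C, hC⟩ := (isCompact_Icc (a := (0 : ℝ)) (b := 2)).exists_bound_of_continuousOn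
    hF.continuousOn
  refine ⟨max C 1, le_trans zero_le_one (le_max_right _ _), fun x => ?_⟩
  rcases le_total x 0 with hx | hx
  · rw [F0 x hx, abs_zero]; exact le_trans zero_le_one (le_max_right _ _)
  rcases le_total x 2 with hx2 | hx2
  · exact le_trans (hC x ⟨hx, hx2⟩) (le_max_left _ _)
  · rw [F2 x hx2, abs_one]; exact le_max_right _ _

section

variable {φ F : ℝ → ℝ} {e : ℤ → ℤ → H}

theorem inner_e
    (he : ∀ j k : ℤ, (e j k : ℝ → ℂ) =ᵐ[volume]
      fun t : ℝ => ((cj j : ℝ) : ℂ) * ((φ ((2 : ℝ) ^ j * t - k) : ℝ) : ℂ)) (j k : ℤ) (f : H) :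
    inner ℂ (e j k) f = ((cj j : ℝ) : ℂ) * ∫ t, ((φ ((2 : ℝ) ^ j * t - k) : ℝ) : ℂ) * f t := by
  rw [L2.inner_def, ← integral_const_mul]
  apply integral_congr_ae
  filter_upwards [he j k] with t ht
  rw [ht]
  simp only [RCLike.inner_apply, map_mul, Complex.conj_ofReal]
  ring

theorem orthonormal_e
    (he : ∀ j k : ℤ, (e j k : ℝ → ℂ) =ᵐ[volume]
      fun t : ℝ => ((cj j : ℝ) : ℂ) * ((φ ((2 : ℝ) ^ j * t - k) : ℝ) : ℂ))
    (hA : ∀ k : ℤ, AC φ k = if k = 0 then 1 else 0) (j : ℤ) : Orthonormal ℂ (e j) := by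
  rw [orthonormal_iff_ite]
  intro k l
  rw [inner_e he]
  have h1 : ∫ t, ((φ ((2 : ℝ) ^ j * t - k) : ℝ) : ℂ) * (e j l) t
      = ((cj j : ℝ) : ℂ) * ((∫ t, φ ((2 : ℝ) ^ j * t - k) * φ ((2 : ℝ) ^ j * t - l) : ℝ) : ℂ) := by
    rw [← integral_complex_ofReal, ← integral_const_mul]
    apply integral_congr_ae
    filter_upwards [he j l] with t ht
    rw [ht]
    push_cast
    ring
  have h2 : (0 : ℝ) < 2 ^ j := zpow_pos two_pos j
  rw [h1, AC_scale φ h2, ← mul_assoc, ← Complex.ofReal_mul, cj_sq, ← Complex.ofReal_mul,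
    mul_div_cancel₀ _ h2.ne', ← Int.cast_sub, hA]
  by_cases hkl : k = l
  · simp [hkl]
  · rw [if_neg hkl, if_neg (by omega)]; simp

theorem e_refine {h : ℕ → ℝ}
    (he : ∀ j k : ℤ, (e j k : ℝ → ℂ) =ᵐ[volume]
      fun t : ℝ => ((cj j : ℝ) : ℂ) * ((φ ((2 : ℝ) ^ j * t - k) : ℝ) : ℂ))
    (hr : ∀ x, φ x = ∑ m ∈ Finset.range 4, h m * φ (2 * x - m)) (j k : ℤ) :
    e j k = ∑ m ∈ Finset.range 4,
      ((h m * cj j / cj (j + 1) : ℝ) : ℂ) • e (j + 1) (2 * k + m) := by
  apply Lp.ext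
  have h1 : ∀ᵐ t : ℝ, ∀ m : ℕ, ((((h m * cj j / cj (j + 1) : ℝ) : ℂ) • e (j + 1) (2 * k + m) : H) :
      ℝ → ℂ) t = ((h m * cj j / cj (j + 1) : ℝ) : ℂ) *
        (((cj (j + 1) : ℝ) : ℂ) * ((φ ((2 : ℝ) ^ (j + 1) * t - ((2 * k + m : ℤ) : ℝ)) : ℝ) : ℂ)) := by
    rw [ae_all_iff]
    intro m
    filter_upwards [Lp.coeFn_smul ((h m * cj j / cj (j + 1) : ℝ) : ℂ) (e (j + 1) (2 * k + m)),
      he (j + 1) (2 * k + m)] with t ht ht'
    rw [ht, Pi.smul_apply, ht', smul_eq_mul]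
  filter_upwards [he j k, Lp.coeFn_fun_finsetSum (Finset.range 4)
    (fun m : ℕ => ((h m * cj j / cj (j + 1) : ℝ) : ℂ) • e (j + 1) (2 * k + m)), h1] with t ht ht' ht''
  rw [ht, ht', hr]
  simp only [ht'']
  rw [Complex.ofReal_sum, Finset.mul_sum]
  refine Finset.sum_congr rfl fun m _ => ?_
  have h3 : (2 : ℝ) ^ (j + 1) * t - ((2 * k + m : ℤ) : ℝ) = 2 * (2 ^ j * t - k) - m := by
    rw [zpow_add_one₀ two_ne_zero]; push_cast; ring
  rw [h3, ← Complex.ofReal_mul, ← Complex.ofReal_mul, ← Complex.ofReal_mul]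
  congr 1
  have := (cj_pos (j + 1)).ne'
  field_simp

theorem integrable_test {ψ : ℝ → ℝ} (hψ : Continuous ψ) (hs : HasCompactSupport ψ) (f : H) :
    Integrable (fun t => ((ψ t : ℝ) : ℂ) * f t) := by
  have hl : LocallyIntegrable (f : ℝ → ℂ) volume :=
    (Lp.memLp f).locallyIntegrable (by norm_num)
  have := hl.integrable_smul_left_of_hasCompactSupport hψ hs
  simpa [Complex.real_smul] using this

theorem dense_aux (hF : Continuous F) (F0 : ∀ x, x ≤ 0 → F x = 0)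
    (F2 : ∀ x, 2 ≤ x → F x = 1) (hφ : ∀ x, φ x = F x - F (x - 1)) (hc : Continuous φ)
    (z0 : ∀ x, x ≤ 0 → φ x = 0) (z3 : ∀ x, 3 ≤ x → φ x = 0) (f : H)
    (hf : ∀ j k : ℤ, ∫ t, ((φ ((2 : ℝ) ^ j * t - k) : ℝ) : ℂ) * f t = 0) : f = 0 := by
  obtain ⟨M, hM0, hM⟩ := exists_bound hF F0 F2
  have hint : ∀ j k : ℤ, Integrable (fun t => ((φ ((2 : ℝ) ^ j * t - k) : ℝ) : ℂ) * f t) :=
    fun j k => integrable_test (by fun_prop) (supp_affine z0 z3 (zpow_pos two_pos j) _) f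
  have tele : ∀ (j m : ℤ) (n : ℕ),
      Integrable (fun t => ((F ((2 : ℝ) ^ j * t - m) - F ((2 : ℝ) ^ j * t - (m + n : ℤ)) : ℝ) : ℂ)
        * f t) ∧
      ∫ t, ((F ((2 : ℝ) ^ j * t - m) - F ((2 : ℝ) ^ j * t - (m + n : ℤ)) : ℝ) : ℂ) * f t = 0 := by
    intro j m n
    induction n with
    | zero => simp
    | succ n ih =>
      have e1 : (fun t => ((F ((2 : ℝ) ^ j * t - m)
          - F ((2 : ℝ) ^ j * t - (m + (n + 1 : ℕ) : ℤ)) : ℝ) : ℂ) * f t)
          = fun t => ((F ((2 : ℝ) ^ j * t - m) - F ((2 : ℝ) ^ j * t - (m + n : ℤ)) : ℝ) : ℂ) * f t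
            + ((φ ((2 : ℝ) ^ j * t - (m + n : ℤ)) : ℝ) : ℂ) * f t := by
        funext t
        rw [hφ, show (2 : ℝ) ^ j * t - (m + n : ℤ) - 1 = (2 : ℝ) ^ j * t - (m + (n + 1 : ℕ) : ℤ) by
          push_cast; ring]
        push_cast
        ring
      rw [e1]
      refine ⟨ih.1.add (hint _ _), ?_⟩
      rw [integral_add ih.1 (hint _ _), ih.2, hf, add_zero]
  apply zero_of_intervals
  intro a b hab
  set G : ℕ → ℝ → ℂ := fun n t => ((F ((2 : ℝ) ^ n * t - ⌊(2 : ℝ) ^ n * a⌋)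
    - F ((2 : ℝ) ^ n * t - ⌊(2 : ℝ) ^ n * b⌋) : ℝ) : ℂ) * f t with hG
  have hG0 : ∀ n, Integrable (G n) ∧ ∫ t, G n t = 0 := by
    intro n
    have hle : ⌊(2 : ℝ) ^ n * a⌋ ≤ ⌊(2 : ℝ) ^ n * b⌋ :=
      Int.floor_le_floor (mul_le_mul_of_nonneg_left hab.le (by positivity))
    obtain ⟨d, hd⟩ := Int.le.dest hle
    have := tele n ⌊(2 : ℝ) ^ n * a⌋ d
    rw [hd] at this
    simpa only [zpow_natCast] using this
  have hl : LocallyIntegrable (f : ℝ → ℂ) volume :=
    (Lp.memLp f).locallyIntegrable (by norm_num)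
  have hbi : Integrable ((Set.Icc (a - 1) (b + 2)).indicator (fun t => 2 * M * ‖f t‖)) := by
    rw [integrable_indicator_iff measurableSet_Icc]
    exact ((hl.integrableOn_isCompact isCompact_Icc).norm).const_mul _
  have lim1 : ∀ s t : ℝ, s < t → ∀ᶠ n : ℕ in atTop, F ((2 : ℝ) ^ n * t - ⌊(2 : ℝ) ^ n * s⌋) = 1 := by
    intro s t hst
    have := (tendsto_pow_atTop_atTop_of_one_lt (one_lt_two (α := ℝ))).atTop_mul_const
      (sub_pos.mpr hst)
    filter_upwards [this.eventually_ge_atTop 2] with n hn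
    apply F2
    have := Int.floor_le ((2 : ℝ) ^ n * s)
    linarith
  have lim0 : ∀ s t : ℝ, t < s → ∀ᶠ n : ℕ in atTop, F ((2 : ℝ) ^ n * t - ⌊(2 : ℝ) ^ n * s⌋) = 0 := by
    intro s t hst
    have := (tendsto_pow_atTop_atTop_of_one_lt (one_lt_two (α := ℝ))).atTop_mul_const
      (sub_pos.mpr hst)
    filter_upwards [this.eventually_ge_atTop 1] with n hn
    apply F0
    have := Int.lt_floor_add_one ((2 : ℝ) ^ n * s)
    linarith
  have hlim := tendsto_integral_of_dominated_convergence (μ := (volume : Measure ℝ)) (F := G)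
    (f := (Set.Ioc a b).indicator (fun t => f t)) _ (fun n => (hG0 n).1.aestronglyMeasurable) hbi
    (fun n => Eventually.of_forall fun t => ?_) ?_
  · simp only [(hG0 _).2] at hlim
    rw [← integral_indicator measurableSet_Ioc]
    exact (tendsto_nhds_unique tendsto_const_nhds hlim).symm
  · have h1 : (1 : ℝ) ≤ 2 ^ n := one_le_pow₀ one_le_two
    by_cases ht : t ∈ Set.Icc (a - 1) (b + 2)
    · rw [Set.indicator_of_mem ht, hG]
      simp only [norm_mul, Complex.norm_real, Real.norm_eq_abs]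
      apply mul_le_mul_of_nonneg_right _ (norm_nonneg _)
      refine (abs_sub _ _).trans ?_
      linarith [hM ((2 : ℝ) ^ n * t - ⌊(2 : ℝ) ^ n * a⌋), hM ((2 : ℝ) ^ n * t - ⌊(2 : ℝ) ^ n * b⌋)]
    · rw [Set.indicator_of_notMem ht, hG]
      rw [Set.mem_Icc, not_and_or, not_le, not_le] at ht
      have a1 := Int.floor_le ((2 : ℝ) ^ n * a)
      have a2 := Int.lt_floor_add_one ((2 : ℝ) ^ n * a)
      have b1 := Int.floor_le ((2 : ℝ) ^ n * b)
      have b2 := Int.lt_floor_add_one ((2 : ℝ) ^ n * b)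
      rcases ht with ht | ht
      · simp only
        rw [F0 _ (by nlinarith), F0 _ (by nlinarith)]
        simp
      · simp only
        rw [F2 _ (by nlinarith), F2 _ (by nlinarith)]
        simp
  · have ha : ∀ᵐ t : ℝ, t ≠ a := by simp [ae_iff, measure_singleton]
    have hb : ∀ᵐ t : ℝ, t ≠ b := by simp [ae_iff, measure_singleton]
    filter_upwards [ha, hb] with t hta htb
    apply tendsto_const_nhds.congr'
    rcases lt_or_gt_of_ne hta with h1 | h1
    · filter_upwards [lim0 a t h1, lim0 b t (h1.trans hab)] with n hn hn'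
      rw [Set.indicator_of_notMem (by simp [h1.le]), hG]
      simp only [hn, hn']
      simp
    rcases lt_or_gt_of_ne htb with h2 | h2
    · filter_upwards [lim1 a t h1, lim0 b t h2] with n hn hn'
      rw [Set.indicator_of_mem (show t ∈ Set.Ioc a b from ⟨h1, h2.le⟩), hG]
      simp only [hn, hn']
      simp
    · filter_upwards [lim1 a t h1, lim1 b t h2] with n hn hn'
      rw [Set.indicator_of_notMem (by simp [h2]), hG]
      simp only [hn, hn']
      simp

theorem inner_bound {ι : Type} [DecidableEq ι] {v : ι → H} (hv : Orthonormal ℂ v) (g f : H)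
    (s : Finset ι) (hs : ∀ k, k ∉ s → inner ℂ (v k) g = 0) {B : ℝ}
    (hB : ∀ k, ‖inner ℂ (v k) g‖ ≤ B)
    (hf : f ∈ (Submodule.span ℂ (Set.range v)).topologicalClosure) :
    ‖inner ℂ g f‖ ≤ s.card * B * ‖f‖ := by
  set g' : H := ∑ k ∈ s, (inner ℂ (v k) g) • v k with hg'
  have h1 : g - g' ∈ (Submodule.span ℂ (Set.range v)).topologicalClosureᗮ := by
    rw [Submodule.orthogonal_closure, Submodule.mem_orthogonal]
    intro u hu
    induction hu using Submodule.span_induction with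
    | mem x hx =>
      obtain ⟨l, rfl⟩ := hx
      rw [inner_sub_right, hg']
      by_cases hl : l ∈ s
      · rw [hv.inner_right_sum _ hl, sub_self]
      · rw [hs l hl, inner_sum, Finset.sum_eq_zero, sub_zero]
        intro k hk
        have hne : l ≠ k := fun h => hl (by rw [h]; exact hk)
        rw [inner_smul_right, hv.inner_eq_zero hne, mul_zero]
    | zero => simp
    | add x y _ _ hx hy => rw [inner_add_left, hx, hy, add_zero]
    | smul a x _ hx => rw [inner_smul_left, hx, mul_zero]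
  have h2 : inner ℂ (g - g') f = 0 := Submodule.inner_left_of_mem_orthogonal hf h1
  rw [inner_sub_left, sub_eq_zero] at h2
  rw [h2]
  refine (norm_inner_le_norm _ _).trans (mul_le_mul_of_nonneg_right ?_ (norm_nonneg _))
  refine (norm_sum_le _ _).trans ?_
  rw [← nsmul_eq_mul]
  apply Finset.sum_le_card_nsmul
  intro k _
  rw [norm_smul, hv.norm_eq_one, mul_one]
  exact hB k

theorem inter_aux
    (he : ∀ j k : ℤ, (e j k : ℝ → ℂ) =ᵐ[volume]
      fun t : ℝ => ((cj j : ℝ) : ℂ) * ((φ ((2 : ℝ) ^ j * t - k) : ℝ) : ℂ))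
    (hA : ∀ k : ℤ, AC φ k = if k = 0 then 1 else 0) {M : ℝ} (hM : ∀ x, |φ x| ≤ M)
    (z0 : ∀ x, x ≤ 0 → φ x = 0) (z3 : ∀ x, 3 ≤ x → φ x = 0) (f : H)
    (hf : ∀ j, f ∈ (Submodule.span ℂ (Set.range (e j))).topologicalClosure) : f = 0 := by
  apply zero_of_intervals
  intro a b hab
  have hfin : (volume : Measure ℝ) (Set.Ioc a b) ≠ ⊤ := by simp
  set g : H := indicatorConstLp 2 measurableSet_Ioc hfin (1 : ℂ) with hg
  rw [← L2.inner_indicatorConstLp_one measurableSet_Ioc hfin f, ← hg]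
  obtain ⟨K, hK⟩ := exists_nat_ge (|a| + |b| + 3)
  have hin : ∀ j k : ℤ, inner ℂ g (e j k)
      = ∫ t in Set.Ioc a b, ((cj j : ℝ) : ℂ) * ((φ ((2 : ℝ) ^ j * t - k) : ℝ) : ℂ) := by
    intro j k
    rw [hg, L2.inner_indicatorConstLp_one]
    exact integral_congr_ae (ae_restrict_of_ae (he j k))
  have hbd : ∀ n : ℕ, ‖inner ℂ g f‖ ≤
      (Finset.Icc (-(K : ℤ)) K).card * (cj (-n) * M * (b - a)) * ‖f‖ := by
    intro n
    refine inner_bound (orthonormal_e he hA (-n)) g f _ (fun k hk => ?_) (fun k => ?_) (hf _)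
    · rw [← inner_conj_symm, hin, setIntegral_eq_zero_of_forall_eq_zero, map_zero]
      intro t ht
      have h1 : (0 : ℝ) < 2 ^ (-(n : ℤ)) := zpow_pos two_pos _
      have h2 : (2 : ℝ) ^ (-(n : ℤ)) ≤ 1 := zpow_le_one_of_nonpos₀ one_le_two (by omega)
      have h3 : |t| ≤ |a| + |b| := by
        rw [abs_le]
        constructor
        · linarith [ht.1, neg_abs_le a, abs_nonneg b]
        · linarith [ht.2, le_abs_self b, abs_nonneg a]
      have h4 : |(2 : ℝ) ^ (-(n : ℤ)) * t| ≤ |a| + |b| := by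
        rw [abs_mul, abs_of_pos h1]
        nlinarith [abs_nonneg t]
      rw [abs_le] at h4
      rw [Finset.mem_Icc, not_and_or, not_le, not_le] at hk
      rcases hk with hk | hk
      · have : (k : ℝ) < -(K : ℝ) := by exact_mod_cast hk
        rw [z3 _ (by linarith)]; simp
      · have : (K : ℝ) < (k : ℝ) := by exact_mod_cast hk
        rw [z0 _ (by linarith)]; simp
    · rw [← inner_conj_symm, hin, RCLike.norm_conj]
      have := norm_setIntegral_le_of_norm_le_const (μ := (volume : Measure ℝ))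
        (s := Set.Ioc a b) (C := cj (-n) * M)
        (f := fun t => ((cj (-n) : ℝ) : ℂ) * ((φ ((2 : ℝ) ^ (-(n : ℤ)) * t - k) : ℝ) : ℂ))
        hfin.lt_top (fun t _ => by
          rw [norm_mul, Complex.norm_real, Complex.norm_real, Real.norm_eq_abs, Real.norm_eq_abs,
            abs_of_pos (cj_pos _)]
          exact mul_le_mul_of_nonneg_left (hM _) (cj_pos _).le)
      simpa [Real.volume_real_Ioc_of_le hab.le] using this
  have hc0 : Tendsto (fun n : ℕ => cj (-n)) atTop (𝓝 0) := by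
    have h1 : ∀ n : ℕ, cj (-n) = ((2 : ℝ) ^ (-(1 / 2 : ℝ))) ^ n := by
      intro n
      unfold cj
      rw [← Real.rpow_natCast, ← Real.rpow_mul zero_le_two]
      congr 1
      push_cast
      ring
    simp only [h1]
    apply tendsto_pow_atTop_nhds_zero_of_lt_one (Real.rpow_nonneg zero_le_two _)
    exact Real.rpow_lt_one_of_one_lt_of_neg one_lt_two (by norm_num)
  have hlim : Tendsto (fun n : ℕ => ((Finset.Icc (-(K : ℤ)) K).card : ℝ)
      * (cj (-n) * M * (b - a)) * ‖f‖) atTop (𝓝 (((Finset.Icc (-(K : ℤ)) K).card : ℝ)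
      * (0 * M * (b - a)) * ‖f‖)) :=
    ((((hc0.mul_const M).mul_const (b - a)).const_mul _).mul_const _)
  simp only [zero_mul, mul_zero] at hlim
  exact norm_le_zero_iff.mp (ge_of_tendsto' hlim hbd)

end

end Pool.Agent.MP_5e7104_an.H55
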